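import Mathlib
import Pool.Agent.H38.Shuffler

/-!
# `GG θ` is an extension of a locally finite group by `ℤ`

`QQ J I` is the group of all elements `p` of `GG θ` without shift part, with lamps in `J`, which agree with an affine map with data in `J`
outside the finite set `YY J I = {(c, m) | c supported in J, m ∈ I}`. It is finite, and every finite set of elements without shift part
is contained in one of them.
-/

set_option autoImplicit false

namespace Pool.Agent.H23.HTP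

open MulAction Filter Pool.Agent.H38.HT

/-- `G` is an extension of a locally finite group by `ℤ`: there is a homomorphism of `G` onto `ℤ` such that all finitely generated
subgroups of its kernel are finite. -/
def LocallyFiniteByZ (G : Type) [Group G] : Prop :=
  ∃ f : G →* Multiplicative ℤ, Function.Surjective f ∧
    ∀ F : Finset G, (∀ x ∈ F, f x = 1) → Finite (Subgroup.closure (F : Set G))

lemma finsupp_fin {A : Type} [Zero A] [Finite A] (J : Finset ℤ) :
    Finite {f : ℤ →₀ A // f.support ⊆ J} := by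
  refine Finite.of_injective (fun f : {f : ℤ →₀ A // f.support ⊆ J} => fun j : J => f.1 j) ?_
  intro f g hfg
  ext i
  by_cases hi : i ∈ J
  · exact congrFun hfg ⟨i, hi⟩
  · rw [Finsupp.notMem_support_iff.1 fun h => hi (f.2 h),
      Finsupp.notMem_support_iff.1 fun h => hi (g.2 h)]

lemma supp_sub {A : Type} [Zero A] {f : ℤ →₀ A} {J : Finset ℤ} :
    f.support ⊆ J ↔ ∀ i ∉ J, f i = 0 := by
  constructor
  · intro h i hi
    exact Finsupp.notMem_support_iff.1 fun h' => hi (h h')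
  · intro h i hi
    by_contra hcon
    exact (Finsupp.mem_support_iff.1 hi) (h i hcon)

/-- the finite set of exceptional points -/
def YY (J I : Finset ℤ) : Set X := {x | x.1.support ⊆ J ∧ x.2 ∈ I}

lemma YY_finite (J I : Finset ℤ) : Finite (YY J I) := by
  have := finsupp_fin (A := ZMod 3) J
  refine Finite.of_injective (fun x : YY J I =>
    ((⟨x.1.1, x.2.1⟩, ⟨x.1.2, x.2.2⟩) : {f : ℤ →₀ ZMod 3 // f.support ⊆ J} × I)) ?_
  intro x y hxy
  have h1 : x.1.1 = y.1.1 := congrArg (fun z : {f : ℤ →₀ ZMod 3 // f.support ⊆ J} × I => z.1.1) hxy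
  have h2 : x.1.2 = y.1.2 := congrArg (fun z : {f : ℤ →₀ ZMod 3 // f.support ⊆ J} × I => (z.2 : ℤ)) hxy
  exact Subtype.ext (Prod.ext h1 h2)

lemma aff_mem (θ : Bool) {J I : Finset ℤ} {b : ℤ →₀ ZMod 3} {l : Lamp} (hb : b.support ⊆ J)
    (hl : l.lamp.support ⊆ J) (hp : l.pos = 0) (x : X) :
    (T b * rho θ l) x ∈ YY J I ↔ x ∈ YY J I := by
  have h1 : (T b * rho θ l) x = (b + tw θ l.lamp x.1, x.2) := by
    rw [Equiv.Perm.mul_apply, rho_apply, T_apply, hp, sh_zero, add_zero]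
  have h2 : ∀ i ∉ J, (b + tw θ l.lamp x.1) i = x.1 i := by
    intro i hi
    rw [Finsupp.add_apply, supp_sub.1 hb i hi, zero_add, tw_apply, supp_sub.1 hl i hi, sg_zero]
  rw [h1]
  have h3 : (b + tw θ l.lamp x.1).support ⊆ J ↔ x.1.support ⊆ J := by
    rw [supp_sub, supp_sub]
    exact forall₂_congr fun i hi => by rw [h2 i hi]
  exact and_congr h3 Iff.rfl

lemma aff_inv_mem (θ : Bool) {J I : Finset ℤ} {b : ℤ →₀ ZMod 3} {l : Lamp} (hb : b.support ⊆ J)
    (hl : l.lamp.support ⊆ J) (hp : l.pos = 0) (x : X) :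
    (T b * rho θ l)⁻¹ x ∈ YY J I ↔ x ∈ YY J I := by
  rw [← aff_mem θ (I := I) hb hl hp ((T b * rho θ l)⁻¹ x), ← Equiv.Perm.mul_apply, mul_inv_cancel,
    Equiv.Perm.one_apply]

lemma tw_supp (θ : Bool) {J : Finset ℤ} {ε : ℤ →₀ ZMod 2} {b : ℤ →₀ ZMod 3}
    (hb : b.support ⊆ J) : (tw θ ε b).support ⊆ J := by
  rw [supp_sub] at hb ⊢
  intro i hi
  rw [tw_apply, hb i hi, sg_map_zero]

lemma aff_mul (θ : Bool) (b c : ℤ →₀ ZMod 3) (l l' : Lamp) :
    T (b + tw θ l.lamp (sh l.pos c)) * rho θ (l * l') = (T b * rho θ l) * (T c * rho θ l') := by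
  rw [T_add, map_mul, mul_assoc, mul_assoc, ← mul_assoc _ (rho θ l) (rho θ l'), ← rho_T, mul_assoc]

lemma aff_inv (θ : Bool) (b : ℤ →₀ ZMod 3) (l : Lamp) :
    T (tw θ l⁻¹.lamp (sh l⁻¹.pos (-b))) * rho θ l⁻¹ = (T b * rho θ l)⁻¹ := by
  have hT : T (-b) = (T b)⁻¹ := by
    rw [eq_inv_iff_mul_eq_one, ← T_add]
    simp [T_zero]
  rw [← rho_T, mul_inv_rev, map_inv, hT]

/-- the finite subgroups exhausting the kernel of the shift part -/
noncomputable def QQ (θ : Bool) (J I : Finset ℤ) : Subgroup (GG θ) where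
  carrier := {p | p.1.2.pos = 0 ∧ p.1.2.lamp.support ⊆ J ∧ ∃ b : ℤ →₀ ZMod 3, b.support ⊆ J ∧
    ∀ x ∉ YY J I, p.1.1 x = (T b * rho θ p.1.2) x}
  one_mem' := by
    refine ⟨rfl, ?_, 0, ?_, ?_⟩
    · show ((0 : ℤ →₀ ZMod 2)).support ⊆ J
      simp
    · simp
    · intro x _
      show x = (T 0 * rho θ 1) x
      rw [T_zero, map_one, mul_one, Equiv.Perm.one_apply]
  mul_mem' := by
    rintro p q ⟨p1, p2, b, p3, p4⟩ ⟨q1, q2, c, q3, q4⟩
    refine ⟨?_, ?_, b + tw θ p.1.2.lamp (sh p.1.2.pos c), ?_, ?_⟩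
    · show p.1.2.pos + q.1.2.pos = 0
      rw [p1, q1, add_zero]
    · show (p.1.2.lamp + sh p.1.2.pos q.1.2.lamp).support ⊆ J
      rw [p1, sh_zero]
      rw [supp_sub] at p2 q2 ⊢
      intro i hi
      rw [Finsupp.add_apply, p2 i hi, q2 i hi, add_zero]
    · rw [p1, sh_zero]
      have h := tw_supp θ (ε := p.1.2.lamp) q3
      rw [supp_sub] at p3 h ⊢
      intro i hi
      rw [Finsupp.add_apply, p3 i hi, h i hi, add_zero]
    · intro x hx
      show p.1.1 (q.1.1 x) = (T (b + tw θ p.1.2.lamp (sh p.1.2.pos c)) * rho θ (p.1.2 * q.1.2)) x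
      rw [aff_mul, Equiv.Perm.mul_apply (T b * rho θ p.1.2), ← q4 x hx]
      refine p4 _ ?_
      rw [q4 x hx, aff_mem θ q3 q2 q1]
      exact hx
  inv_mem' := by
    rintro p ⟨p1, p2, b, p3, p4⟩
    refine ⟨?_, ?_, tw θ (p.1.2⁻¹).lamp (sh (p.1.2⁻¹).pos (-b)), ?_, ?_⟩
    · show -p.1.2.pos = 0
      rw [p1, neg_zero]
    · show (-(sh (-p.1.2.pos) p.1.2.lamp)).support ⊆ J
      rw [p1, neg_zero, sh_zero, Finsupp.support_neg]
      exact p2
    · rw [Lamp.inv_pos, p1, neg_zero, sh_zero]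
      refine tw_supp θ ?_
      rw [Finsupp.support_neg]
      exact p3
    · intro x hx
      show (p.1.1)⁻¹ x = (T (tw θ (p.1.2⁻¹).lamp (sh (p.1.2⁻¹).pos (-b))) * rho θ (p.1.2)⁻¹) x
      rw [aff_inv, Equiv.Perm.inv_eq_iff_eq, p4, ← Equiv.Perm.mul_apply, mul_inv_cancel,
        Equiv.Perm.one_apply]
      rw [aff_inv_mem θ p3 p2 p1]
      exact hx

lemma mem_QQ {θ : Bool} {J I : Finset ℤ} {p : GG θ} : p ∈ QQ θ J I ↔
    p.1.2.pos = 0 ∧ p.1.2.lamp.support ⊆ J ∧ ∃ b : ℤ →₀ ZMod 3, b.support ⊆ J ∧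
    ∀ x ∉ YY J I, p.1.1 x = (T b * rho θ p.1.2) x := Iff.rfl

lemma QQ_maps {θ : Bool} {J I : Finset ℤ} {p : GG θ} (hp : p ∈ QQ θ J I) {y : X}
    (hy : y ∈ YY J I) : p.1.1 y ∈ YY J I := by
  obtain ⟨p1, p2, b, p3, p4⟩ := hp
  by_contra hcon
  have h1 : (T b * rho θ p.1.2)⁻¹ (p.1.1 y) ∉ YY J I := by
    rw [aff_inv_mem θ p3 p2 p1]
    exact hcon
  have h2 := p4 _ h1
  rw [← Equiv.Perm.mul_apply (T b * rho θ p.1.2), mul_inv_cancel, Equiv.Perm.one_apply] at h2
  have h3 := p.1.1.injective h2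
  rw [h3] at h1
  exact h1 hy

lemma QQ_finite (θ : Bool) (J I : Finset ℤ) : Finite (QQ θ J I) := by
  classical
  have h1 := finsupp_fin (A := ZMod 3) J
  have h2 := finsupp_fin (A := ZMod 2) J
  have h3 := YY_finite J I
  let b : QQ θ J I → ℤ →₀ ZMod 3 := fun p => p.2.2.2.choose
  have hb1 : ∀ p : QQ θ J I, (b p).support ⊆ J := fun p => p.2.2.2.choose_spec.1
  have hb2 : ∀ p : QQ θ J I, ∀ x ∉ YY J I, p.1.1.1 x = (T (b p) * rho θ p.1.1.2) x :=
    fun p => p.2.2.2.choose_spec.2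
  refine Finite.of_injective (fun p : QQ θ J I =>
    ((fun y : YY J I => (⟨p.1.1.1 y.1, QQ_maps p.2 y.2⟩ : YY J I)),
      (⟨p.1.1.2.lamp, p.2.2.1⟩ : {f : ℤ →₀ ZMod 2 // f.support ⊆ J}),
      (⟨b p, hb1 p⟩ : {f : ℤ →₀ ZMod 3 // f.support ⊆ J}))) ?_
  intro p q hpq
  have e1 := congrArg Prod.fst hpq
  have e2 : p.1.1.2.lamp = q.1.1.2.lamp := congrArg (fun z => z.2.1.1) hpq
  have e3 : b p = b q := congrArg (fun z => z.2.2.1) hpq
  have e4 : p.1.1.2 = q.1.1.2 := by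
    ext1
    · exact e2
    · rw [p.2.1, q.2.1]
  refine Subtype.ext (Subtype.ext (Prod.ext ?_ e4))
  ext1 x
  by_cases hx : x ∈ YY J I
  · exact congrArg Subtype.val (congrFun e1 ⟨x, hx⟩)
  · rw [hb2 p x hx, hb2 q x hx, e3, e4]

lemma exists_QQ (θ : Bool) (p : GG θ) : ∃ JI : Finset ℤ × Finset ℤ, p.1.2.pos = 0 →
    ∀ J I : Finset ℤ, JI.1 ⊆ J → JI.2 ⊆ I → p ∈ QQ θ J I := by
  classical
  obtain ⟨b, hb⟩ := p.2
  have hfin : {x : X | ¬ p.1.1 x = (T b * rho θ p.1.2) x}.Finite := hb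
  refine ⟨(p.1.2.lamp.support ∪ (b.support ∪ hfin.toFinset.biUnion fun x => x.1.support),
    hfin.toFinset.image fun x => x.2), fun hpos J I hJ hI => ?_⟩
  refine ⟨hpos, Finset.union_subset_left hJ, b,
    Finset.union_subset_left (Finset.union_subset_right hJ), fun x hx => ?_⟩
  by_contra hcon
  apply hx
  have hmem : x ∈ hfin.toFinset := hfin.mem_toFinset.2 hcon
  refine ⟨?_, hI (Finset.mem_image_of_mem _ hmem)⟩
  exact (Finset.subset_biUnion_of_mem (fun x : X => x.1.support) hmem).trans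
    (Finset.union_subset_right (Finset.union_subset_right hJ))

/-- the shift part -/
noncomputable def ps (θ : Bool) : GG θ →* Multiplicative ℤ where
  toFun p := Multiplicative.ofAdd p.1.2.pos
  map_one' := rfl
  map_mul' _ _ := rfl

lemma locFin (θ : Bool) : LocallyFiniteByZ (GG θ) := by
  classical
  refine ⟨ps θ, ?_, ?_⟩
  · intro n
    exact ⟨lEl θ ⟨0, Multiplicative.toAdd n⟩, rfl⟩
  · intro F hF
    choose JI hJI using exists_QQ θ
    have h1 : Subgroup.closure (F : Set (GG θ)) ≤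
        QQ θ (F.biUnion fun p => (JI p).1) (F.biUnion fun p => (JI p).2) := by
      rw [Subgroup.closure_le]
      intro p hp
      refine hJI p ?_ _ _ (Finset.subset_biUnion_of_mem (fun p => (JI p).1) hp)
        (Finset.subset_biUnion_of_mem (fun p => (JI p).2) hp)
      exact hF p hp
    have h2 := QQ_finite θ (F.biUnion fun p => (JI p).1) (F.biUnion fun p => (JI p).2)
    exact Finite.of_injective (Subgroup.inclusion h1) (Subgroup.inclusion_injective h1)

end Pool.Agent.H23.HTP
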