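import Mathlib
import Pool.Agent.H38.HighTrans
import Pool.Agent.H38.Shuffler

/-!
# No group commensurable with `GG false` acts quasiprimitively

`A ≤ GG false` of finite index; `DD` = the elements with trivial lamp part, highly transitive on `X`; `NN` = the elements acting
trivially on `X`. A subgroup `M ≤ A` normalised by `A`, which is finite or abelian, is contained in `NN` (`le_NN`), and it is trivial
if it is finite (`finite_eq_bot`).
-/

set_option autoImplicit false

namespace Pool.Agent.H23.HTP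

open MulAction Filter Pool.Agent.H38.HT

/-! ### Highly transitive groups -/

section HTcons

variable {K : Type} {Ω : Type} [Group K] [MulAction K Ω] [Infinite Ω]

lemma infinite_of_ht (h : ∀ k : ℕ, IsMultiplyPretransitive K Ω k) : Infinite K := by
  obtain ⟨x⟩ : Nonempty Ω := inferInstance
  have h1 : IsPretransitive K Ω := is_one_pretransitive_iff.1 (h 1)
  exact Infinite.of_surjective (fun g : K => g • x) (fun y => h1.exists_smul_eq x y)

omit [Infinite Ω] in
lemma ht_mono (A B : Subgroup K) (hAB : A ≤ B)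
    (h : ∀ k : ℕ, IsMultiplyPretransitive A Ω k) (k : ℕ) : IsMultiplyPretransitive B Ω k := by
  refine ⟨fun x y => ?_⟩
  obtain ⟨g, hg⟩ := (h k).exists_smul_eq x y
  exact ⟨⟨g.1, hAB g.2⟩, hg⟩

variable [FaithfulSMul K Ω]

lemma ht_finiteIndex (h : ∀ k : ℕ, IsMultiplyPretransitive K Ω k) (B : Subgroup K)
    (hB : B.FiniteIndex) (k : ℕ) : IsMultiplyPretransitive B Ω k := by
  have hK : Infinite K := infinite_of_ht h
  have hfi : B.normalCore.FiniteIndex := inferInstance
  have hne : B.normalCore ≠ ⊥ := by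
    intro h0
    rw [h0] at hfi
    have h1 := hfi.index_ne_zero
    rw [Subgroup.index_bot] at h1
    exact h1 Nat.card_eq_zero_of_infinite
  exact ht_mono B.normalCore B (Subgroup.normalCore_le B)
    (fun k => ht_normal h B.normalCore hne k) k

lemma normal_finite_eq_bot (h : ∀ k : ℕ, IsMultiplyPretransitive K Ω k) (F : Subgroup K)
    (hF : F.Normal) (hfin : Finite F) : F = ⊥ := by
  by_contra hne
  have h1 := fun k => ht_normal h F hne k
  have := infinite_of_ht h1
  exact not_finite F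

lemma normal_abelian_eq_bot (h : ∀ k : ℕ, IsMultiplyPretransitive K Ω k) (A : Subgroup K)
    (hA : A.Normal) (hab : ∀ a ∈ A, ∀ b ∈ A, a * b = b * a) : A = ⊥ := by
  classical
  by_contra hne
  have h2 := ht_normal h A hne 2
  rw [is_two_pretransitive_iff] at h2
  obtain ⟨x⟩ : Nonempty Ω := inferInstance
  obtain ⟨y, hy⟩ := exists_ne x
  obtain ⟨z, hz⟩ := Infinite.exists_notMem_finset ({x, y} : Finset Ω)
  have hzx : z ≠ x := fun h => hz (by simp [h])
  have hzy : z ≠ y := fun h => hz (by simp [h])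
  obtain ⟨m, hm, -⟩ := h2 (a := x) (b := z) (c := y) (d := x) (Ne.symm hzx) hy
  obtain ⟨n, hn1, hn2⟩ := h2 (a := x) (b := y) (c := x) (d := z) (Ne.symm hy) (Ne.symm hzx)
  have hc : n.1 * m.1 = m.1 * n.1 := hab _ n.2 _ m.2
  have e1 : (n.1 * m.1) • x = z := by
    rw [mul_smul]
    have : m.1 • x = y := hm
    rw [this]; exact hn2
  have e2 : (m.1 * n.1) • x = y := by
    rw [mul_smul]
    have : n.1 • x = x := hn1
    rw [this]; exact hm
  rw [hc, e2] at e1
  exact hzy e1.symm

end HTcons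

/-! ### The group `GG false` -/

/-- the projection to the lamplighter group -/
noncomputable def sn (θ : Bool) : GG θ →* Lamp :=
  (MonoidHom.snd (Equiv.Perm X) Lamp).comp (GG θ).subtype

@[simp] lemma sn_apply (θ : Bool) (p : GG θ) : sn θ p = p.1.2 := rfl

/-- the elements with trivial lamplighter part -/
noncomputable def DD : Subgroup (GG false) := (sn false).ker

lemma mem_DD {p : GG false} : p ∈ DD ↔ p.1.2 = 1 := MonoidHom.mem_ker

instance : DD.Normal := MonoidHom.normal_ker _

lemma mem_NN {p : GG false} : p ∈ NN ↔ p.1.1 = 1 := by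
  constructor
  · intro h
    exact h.1
  · intro h
    refine ⟨h, ?_⟩
    obtain ⟨b, hb⟩ := p.2
    obtain ⟨x, hx⟩ := hb.exists
    rw [h] at hx
    have h2 : x.2 = x.2 + p.1.2.pos := congrArg Prod.snd hx
    omega

lemma DD_NN_comm {p q : GG false} (hp : p ∈ DD) (hq : q ∈ NN) : p * q = q * p := by
  have h1 : p.1.2 = 1 := mem_DD.1 hp
  have h2 : q.1.1 = 1 := mem_NN.1 hq
  ext1
  ext1
  · simp [h2]
  · simp [h1]

lemma DD_NN_bot {p : GG false} (hp : p ∈ DD) (hq : p ∈ NN) : p = 1 := by
  ext1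
  ext1
  · exact mem_NN.1 hq
  · exact mem_DD.1 hp

/-- the action of `DD` on `X` -/
noncomputable abbrev actD : MulAction DD X := MulAction.compHom X ((pr false).comp DD.subtype)

lemma DD_ht : let _ := actD; (∀ k : ℕ, IsMultiplyPretransitive DD X k) ∧ FaithfulSMul DD X := by
  intro _
  constructor
  · refine fun k => ht_of_move ?_ k
    intro F x y hx hy
    classical
    refine ⟨⟨swEl false x y, mem_DD.2 (swEl_snd false x y)⟩, ?_, ?_⟩
    · show (swEl false x y).1.1 x = y
      simp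
    · intro z hz
      show (swEl false x y).1.1 z = z
      rw [swEl_fst]
      apply Equiv.swap_apply_of_ne_of_ne
      · rintro rfl; exact hx hz
      · rintro rfl; exact hy hz
  · refine ⟨fun {p q} h => ?_⟩
    ext1
    ext1
    ext1
    · ext1 x
      exact h x
    · rw [mem_DD.1 p.2, mem_DD.1 q.2]

/-- A subgroup `M ≤ A`, normalised by `A`, is contained in `NN` if it is finite or abelian. -/
lemma le_NN (A : Subgroup (GG false)) (hA : A.FiniteIndex) (M : Subgroup (GG false)) (hM : M ≤ A)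
    (hn : ∀ a ∈ A, ∀ m ∈ M, a * m * a⁻¹ ∈ M)
    (h : Finite M ∨ ∀ a ∈ M, ∀ b ∈ M, a * b = b * a) : M ≤ NN := by
  classical
  let _ := actD
  obtain ⟨hD1, hD2⟩ := DD_ht
  have hfi : (A.subgroupOf DD).FiniteIndex := inferInstance
  have hD3 : ∀ k : ℕ, IsMultiplyPretransitive (A.subgroupOf DD) X k :=
    fun k => ht_finiteIndex hD1 _ hfi k
  -- the trace of `M`
  let P : Subgroup (A.subgroupOf DD) := M.comap (DD.subtype.comp (A.subgroupOf DD).subtype)
  have hP : ∀ d : A.subgroupOf DD, d ∈ P ↔ ((d : DD) : GG false) ∈ M := fun d => Iff.rfl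
  have hPn : P.Normal := by
    constructor
    intro m hm d
    rw [hP] at hm ⊢
    exact hn _ (Subgroup.mem_subgroupOf.1 d.2) _ hm
  have hP0 : P = ⊥ := by
    rcases h with h | h
    · refine normal_finite_eq_bot hD3 P hPn ?_
      refine Finite.of_injective (fun d : P => (⟨((d : A.subgroupOf DD) : DD), (hP d.1).1 d.2⟩ : M)) ?_
      intro d d' hdd
      have h1 : (((d : A.subgroupOf DD) : DD) : GG false) = ((d' : A.subgroupOf DD) : DD) :=
        congrArg (fun z : M => (z : GG false)) hdd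
      exact Subtype.ext (Subtype.ext (Subtype.ext h1))
    · refine normal_abelian_eq_bot hD3 P hPn ?_
      intro a ha b hb
      exact Subtype.ext (Subtype.ext (h _ ((hP a).1 ha) _ ((hP b).1 hb)))
  -- `M` commutes with `A ⊓ DD`
  have hcomm : ∀ m ∈ M, ∀ d ∈ A, d ∈ DD → m * d = d * m := by
    intro m hm d hdA hdD
    have h1 : m * d * m⁻¹ * d⁻¹ ∈ M := by
      have h2 : d * m⁻¹ * d⁻¹ ∈ M := hn d hdA _ (M.inv_mem hm)
      have h3 : m * d * m⁻¹ * d⁻¹ = m * (d * m⁻¹ * d⁻¹) := by group
      rw [h3]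
      exact M.mul_mem hm h2
    have h2 : m * d * m⁻¹ * d⁻¹ ∈ DD :=
      DD.mul_mem (Subgroup.Normal.conj_mem inferInstance d hdD m) (DD.inv_mem hdD)
    have h3 : (⟨⟨_, h2⟩, Subgroup.mem_subgroupOf.2 (hM h1)⟩ : A.subgroupOf DD) ∈ P := h1
    rw [hP0, Subgroup.mem_bot] at h3
    have h4 : m * d * m⁻¹ * d⁻¹ = 1 := congrArg (fun z : A.subgroupOf DD => ((z : DD) : GG false)) h3
    have h5 : m * d * m⁻¹ = d := mul_inv_eq_one.1 h4
    exact mul_inv_eq_iff_eq_mul.1 h5
  intro m hm
  rw [mem_NN]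
  ext1 x
  by_contra hx
  have hx' : m.1.1 x ≠ x := hx
  obtain ⟨z, hz⟩ := Infinite.exists_notMem_finset ({x, m.1.1 x} : Finset X)
  have hzx : z ≠ x := fun h => hz (by simp [h])
  have hzy : z ≠ m.1.1 x := fun h => hz (by simp [h])
  have h2 := hD3 2
  rw [is_two_pretransitive_iff] at h2
  obtain ⟨d, hd1, hd2⟩ := h2 (a := x) (b := m.1.1 x) (c := x) (d := z) (Ne.symm hx') (Ne.symm hzx)
  have e1 : ((d : DD) : GG false).1.1 x = x := hd1
  have e2 : ((d : DD) : GG false).1.1 (m.1.1 x) = z := hd2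
  have e3 := hcomm m hm ((d : DD) : GG false) (Subgroup.mem_subgroupOf.1 d.2) d.1.2
  have e4 : (m * ((d : DD) : GG false)).1.1 x = (((d : DD) : GG false) * m).1.1 x := by rw [e3]
  have e5 : m.1.1 (((d : DD) : GG false).1.1 x) = ((d : DD) : GG false).1.1 (m.1.1 x) := e4
  rw [e1, e2] at e5
  exact hzy e5.symm

lemma sh_inj {f : ℤ →₀ ZMod 2} (hf : f ≠ 0) {a b : ℤ} (h : sh a f = sh b f) : a = b := by
  by_contra hab
  have key : ∀ i : ℤ, f (i + (b - a)) = f i := by
    intro i
    have h1 := DFunLike.congr_fun h (i + b)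
    rw [sh_apply, sh_apply] at h1
    rw [show i + (b - a) = i + b - a by ring, h1]
    congr 1
    ring
  obtain ⟨i, hi⟩ := Finsupp.ne_iff.1 hf
  have key2 : ∀ n : ℕ, f (i + n * (b - a)) = f i := by
    intro n
    induction n with
    | zero => simp
    | succ n ih =>
      rw [← ih, ← key (i + n * (b - a))]
      congr 1
      push_cast
      ring
  have hinf : Set.Infinite (f.support : Set ℤ) := by
    refine Set.infinite_of_injective_forall_mem (f := fun n : ℕ => i + n * (b - a)) ?_ ?_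
    · intro n m hnm
      have h1 : (n : ℤ) * (b - a) = m * (b - a) := by
        have : i + (n : ℤ) * (b - a) = i + m * (b - a) := hnm
        linarith
      have h2 : (b - a) ≠ 0 := fun h => hab (by omega)
      exact_mod_cast mul_right_cancel₀ h2 h1
    · intro n
      rw [Finset.mem_coe, Finsupp.mem_support_iff, key2 n]
      exact hi
  exact hinf f.support.finite_toSet

/-- A finite subgroup of `A` normalised by `A` is trivial. -/
lemma finite_eq_bot (A : Subgroup (GG false)) (hA : A.FiniteIndex) (E : Subgroup (GG false))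
    (hE : E ≤ A) (hn : ∀ a ∈ A, ∀ m ∈ E, a * m * a⁻¹ ∈ E) (hfin : Finite E) : E = ⊥ := by
  have hEN := le_NN A hA E hE hn (Or.inl hfin)
  rw [Subgroup.eq_bot_iff_forall]
  intro e he
  have h1 : e.1.1 = 1 := mem_NN.1 (hEN he)
  have h2 : e.1.2.pos = 0 := (hEN he).2
  by_contra hne
  have hf : e.1.2.lamp ≠ 0 := by
    intro h0
    apply hne
    ext1
    ext1
    · exact h1
    · ext1
      · exact h0
      · exact h2
  obtain ⟨n, hn1, -, hnA⟩ := Subgroup.exists_pow_mem_of_index_ne_zero hA.index_ne_zero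
    (lEl false ⟨0, 1⟩)
  have hpow : ∀ k : ℕ, ((lEl false ⟨0, 1⟩) ^ n) ^ k = lEl false ⟨0, (n * k : ℕ)⟩ := by
    intro k
    rw [← pow_mul, ← map_pow]
    congr 1
    have := lamp_zpow ((n * k : ℕ) : ℤ)
    rw [zpow_natCast] at this
    exact this
  have hmem : ∀ k : ℕ, ((lEl false ⟨0, 1⟩) ^ n) ^ k * e * (((lEl false ⟨0, 1⟩) ^ n) ^ k)⁻¹ ∈ E :=
    fun k => hn _ (A.pow_mem hnA k) e he
  have hlamp : ∀ k : ℕ,
      (((lEl false ⟨0, 1⟩) ^ n) ^ k * e * (((lEl false ⟨0, 1⟩) ^ n) ^ k)⁻¹).1.2.lamp =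
        sh ((n * k : ℕ) : ℤ) e.1.2.lamp := by
    intro k
    rw [hpow k]
    have h3 : (lEl false ⟨0, ((n * k : ℕ) : ℤ)⟩ * e * (lEl false ⟨0, ((n * k : ℕ) : ℤ)⟩)⁻¹).1.2 =
        (⟨0, ((n * k : ℕ) : ℤ)⟩ : Lamp) * e.1.2 * (⟨0, ((n * k : ℕ) : ℤ)⟩ : Lamp)⁻¹ := rfl
    rw [h3]
    simp [sh_map_zero]
  have hinf : Infinite E := by
    refine Infinite.of_injective (fun k : ℕ => (⟨_, hmem k⟩ : E)) ?_
    intro k l hkl
    have h4 : (((lEl false ⟨0, 1⟩) ^ n) ^ k * e * (((lEl false ⟨0, 1⟩) ^ n) ^ k)⁻¹) =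
        (((lEl false ⟨0, 1⟩) ^ n) ^ l * e * (((lEl false ⟨0, 1⟩) ^ n) ^ l)⁻¹) :=
      congrArg Subtype.val hkl
    have h5 := congrArg (fun p : GG false => p.1.2.lamp) h4
    simp only [hlamp] at h5
    have h6 := sh_inj hf h5
    have h7 : n * k = n * l := by exact_mod_cast h6
    exact Nat.eq_of_mul_eq_mul_left hn1 h7
  exact not_finite E

lemma DD_infinite : Infinite DD := by
  let _ := actD
  exact infinite_of_ht DD_ht.1

/-- a finite index subgroup meets an infinite subgroup nontrivially -/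
lemma exists_ne_one {G : Type} [Group G] (A : Subgroup G) (hA : A.FiniteIndex) (N : Subgroup G)
    (hN : Infinite N) : ∃ g ∈ A, g ∈ N ∧ g ≠ 1 := by
  by_contra hcon
  push Not at hcon
  have h0 : A.subgroupOf N = ⊥ := by
    rw [Subgroup.eq_bot_iff_forall]
    intro x hx
    exact Subtype.ext (hcon x (Subgroup.mem_subgroupOf.1 hx) x.2)
  have hfi : (A.subgroupOf N).FiniteIndex := inferInstance
  have h1 := hfi.index_ne_zero
  rw [h0, Subgroup.index_bot] at h1
  exact h1 Nat.card_eq_zero_of_infinite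

/-! ### Primitive actions -/

/-- `K` has a faithful quasiprimitive action on an infinite set: a faithful transitive action such that every nontrivial
normal subgroup is transitive (for instance a primitive action). -/
def HasQuasiprimitiveAction (K : Type) [Group K] : Prop :=
  ∃ (Ω : Type) (_ : MulAction K Ω), Infinite Ω ∧ FaithfulSMul K Ω ∧ IsPretransitive K Ω ∧
    ∀ N : Subgroup K, N.Normal → N ≠ ⊥ → IsPretransitive N Ω

section prim

lemma prim_trans {K : Type} [Group K] (Ω : Type) [MulAction K Ω] [FaithfulSMul K Ω]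
    [IsPreprimitive K Ω] (N : Subgroup K) (_ : N.Normal) (hN : N ≠ ⊥) : IsPretransitive N Ω := by
  refine IsQuasiPreprimitive.isPretransitive_of_normal (G := K) (N := N) ?_
  intro h
  apply hN
  rw [Subgroup.eq_bot_iff_forall]
  intro n hn
  refine FaithfulSMul.eq_of_smul_eq_smul (α := Ω) fun x => ?_
  have hx : x ∈ fixedPoints N Ω := by rw [h]; trivial
  rw [one_smul]
  exact hx ⟨n, hn⟩

lemma prim_finite {K : Type} [Group K] (Ω : Type) [MulAction K Ω] [Infinite Ω]
    (hq : ∀ N : Subgroup K, N.Normal → N ≠ ⊥ → IsPretransitive N Ω)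
    (N : Subgroup K) (hn : N.Normal) (hN : Finite N) : N = ⊥ := by
  by_contra hne
  have h := hq N hn hne
  obtain ⟨x⟩ : Nonempty Ω := inferInstance
  have : Finite Ω := Finite.of_surjective (fun g : N => g • x) (fun y => h.exists_smul_eq x y)
  exact not_finite Ω

/-- `K` acts faithfully on an infinite set and all nontrivial normal subgroups are transitive; there is no homomorphism with finite kernel from a normal
subgroup of finite index of `K` onto a subgroup of finite index of `GG false`. -/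
lemma no_hom {K : Type} [Group K] (Ω : Type) [MulAction K Ω] [Infinite Ω] [FaithfulSMul K Ω]
    (hq : ∀ N : Subgroup K, N.Normal → N ≠ ⊥ → IsPretransitive N Ω)
    (B : Subgroup K) [B.Normal] (ψ : B →* GG false)
    (hker : Finite ψ.ker) (hr : ψ.range.FiniteIndex) : False := by
  -- the image of a normal subgroup of `B` is normalised by the range
  have hnorm : ∀ (M : Subgroup B), M.Normal → ∀ a ∈ ψ.range, ∀ m ∈ M.map ψ, a * m * a⁻¹ ∈ M.map ψ := by
    rintro M hM _ ⟨a, rfl⟩ _ ⟨m, hm, rfl⟩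
    exact ⟨a * m * a⁻¹, hM.conj_mem m hm a, by simp⟩
  have hle : ∀ M : Subgroup B, M.map ψ ≤ ψ.range := by
    rintro M _ ⟨m, -, rfl⟩
    exact ⟨m, rfl⟩
  -- conjugation by `k`
  have hconj : ∀ (k : K) (M : Subgroup B), M.Normal → (M.map (MulAut.conjNormal k : B ≃* B).toMonoidHom).Normal :=
    fun k M hM => hM.map _ (MulAut.conjNormal k : B ≃* B).surjective
  -- the kernel is normal in `K`
  have hk1 : ∀ (k : K) (f : B), f ∈ ψ.ker → (MulAut.conjNormal k : B ≃* B) f ∈ ψ.ker := by
    intro k f hf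
    have hfin : Finite ((ψ.ker.map (MulAut.conjNormal k : B ≃* B).toMonoidHom).map ψ) := by
      have : Finite (ψ.ker.map (MulAut.conjNormal k : B ≃* B).toMonoidHom) :=
        Finite.of_surjective _ ((MulAut.conjNormal k : B ≃* B).toMonoidHom.subgroupMap_surjective ψ.ker)
      exact Finite.of_surjective _ (ψ.subgroupMap_surjective _)
    have h1 := finite_eq_bot ψ.range hr _ (hle _) (hnorm _ (hconj k _ inferInstance)) hfin
    have h2 : ψ ((MulAut.conjNormal k : B ≃* B) f) ∈
        ((ψ.ker.map (MulAut.conjNormal k : B ≃* B).toMonoidHom).map ψ) :=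
      ⟨_, ⟨f, hf, rfl⟩, rfl⟩
    rw [h1, Subgroup.mem_bot] at h2
    exact h2
  have hF : (ψ.ker.map B.subtype).Normal := by
    constructor
    rintro _ ⟨f, hf, rfl⟩ k
    exact ⟨(MulAut.conjNormal k : B ≃* B) f, hk1 k f hf, MulAut.conjNormal_apply k f⟩
  have hF0 : ψ.ker.map B.subtype = ⊥ :=
    prim_finite Ω hq _ hF (Finite.of_surjective _ (B.subtype.subgroupMap_surjective ψ.ker))
  have hinj : Function.Injective ψ := by
    rw [← MonoidHom.ker_eq_bot_iff, Subgroup.eq_bot_iff_forall]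
    intro f hf
    have h1 : (f : K) ∈ ψ.ker.map B.subtype := ⟨f, hf, rfl⟩
    rw [hF0, Subgroup.mem_bot] at h1
    exact Subtype.ext h1
  -- the preimage of `NN` is normal in `K`
  have hM1 : ∀ (k : K) (m : B), ψ m ∈ NN → ψ ((MulAut.conjNormal k : B ≃* B) m) ∈ NN := by
    intro k m hm
    have hMn : (NN.comap ψ).Normal := NN_normal.comap ψ
    have hab : ∀ a ∈ (((NN.comap ψ).map (MulAut.conjNormal k : B ≃* B).toMonoidHom).map ψ),
        ∀ b ∈ (((NN.comap ψ).map (MulAut.conjNormal k : B ≃* B).toMonoidHom).map ψ),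
        a * b = b * a := by
      rintro _ ⟨_, ⟨a, ha, rfl⟩, rfl⟩ _ ⟨_, ⟨b, hb, rfl⟩, rfl⟩
      have h3 : a * b = b * a := hinj (by
        rw [map_mul, map_mul]
        exact NN_comm _ ha _ hb)
      rw [← map_mul, ← map_mul, ← map_mul, ← map_mul, h3]
    exact le_NN ψ.range hr _ (hle _) (hnorm _ (hconj k _ hMn)) (Or.inr hab)
      ⟨_, ⟨m, hm, rfl⟩, rfl⟩
  have hMK : ((NN.comap ψ).map B.subtype).Normal := by
    constructor
    rintro _ ⟨m, hm, rfl⟩ k
    exact ⟨(MulAut.conjNormal k : B ≃* B) m, hM1 k m hm, MulAut.conjNormal_apply k m⟩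
  obtain ⟨_, ⟨m₀, rfl⟩, hm0, hm1⟩ := exists_ne_one ψ.range hr NN NN_infinite
  have hMne : (NN.comap ψ).map B.subtype ≠ ⊥ := by
    intro h0
    have h1 : (m₀ : K) ∈ (NN.comap ψ).map B.subtype := ⟨m₀, hm0, rfl⟩
    rw [h0, Subgroup.mem_bot] at h1
    have h2 : m₀ = 1 := Subtype.ext h1
    rw [h2, map_one] at hm1
    exact hm1 rfl
  have htr := hq _ hMK hMne
  -- an element of `DD`
  obtain ⟨_, ⟨d, rfl⟩, hd0, hd1⟩ := exists_ne_one ψ.range hr DD DD_infinite
  obtain ⟨x⟩ : Nonempty Ω := inferInstance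
  obtain ⟨⟨_, ⟨m, hm, rfl⟩⟩, hmx⟩ := htr.exists_smul_eq x ((d : K) • x)
  have hmx' : (m : K) • x = (d : K) • x := hmx
  have hdm : (d : K) = m := by
    refine FaithfulSMul.eq_of_smul_eq_smul (α := Ω) fun y => ?_
    obtain ⟨⟨_, ⟨n, hn, rfl⟩⟩, hny⟩ := htr.exists_smul_eq x y
    have hny' : (n : K) • x = y := hny
    have c1 : d * n = n * d := hinj (by
      rw [map_mul, map_mul]
      exact DD_NN_comm hd0 hn)
    have c2 : m * n = n * m := hinj (by
      rw [map_mul, map_mul]
      exact NN_comm _ hm _ hn)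
    have c1' : (d : K) * n = n * d := congrArg Subtype.val c1
    have c2' : (m : K) * n = n * m := congrArg Subtype.val c2
    rw [← hny', ← mul_smul, ← mul_smul, c1', c2', mul_smul, mul_smul, hmx']
  have hdm' : d = m := Subtype.ext hdm
  rw [hdm'] at hd0 hd1
  exact hd1 (DD_NN_bot hd0 hm)

/-- No group with a faithful quasiprimitive action on an infinite set is commensurable up to finite kernels with `GG false`. -/
lemma no_comm {K : Type} [Group K] (hK : HasQuasiprimitiveAction K) (A : Subgroup (GG false))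
    (B : Subgroup K) (E : Subgroup A) (F : Subgroup B) [hEn : E.Normal] [F.Normal]
    (hA : A.FiniteIndex) (hB : B.FiniteIndex) (hE : Finite E) (hF : Finite F)
    (e : A ⧸ E ≃* B ⧸ F) : False := by
  obtain ⟨Ω, _, _, _, _, hq⟩ := hK
  -- `E` is trivial
  have hE0 : E = ⊥ := by
    have h1 : E.map A.subtype = ⊥ := by
      refine finite_eq_bot A hA _ ?_ ?_ (Finite.of_surjective _ (A.subtype.subgroupMap_surjective E))
      · rintro _ ⟨x, -, rfl⟩
        exact x.2
      · rintro a ha _ ⟨x, hx, rfl⟩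
        exact ⟨⟨a, ha⟩ * x * ⟨a, ha⟩⁻¹, hEn.conj_mem x hx _, rfl⟩
    rw [Subgroup.eq_bot_iff_forall]
    intro x hx
    have h2 : (x : GG false) ∈ E.map A.subtype := ⟨x, hx, rfl⟩
    rw [h1, Subgroup.mem_bot] at h2
    exact Subtype.ext h2
  have hinj : Function.Injective (QuotientGroup.mk' E) := by
    rw [← MonoidHom.ker_eq_bot_iff, QuotientGroup.ker_mk']
    exact hE0
  let q : A ≃* A ⧸ E := MulEquiv.ofBijective (QuotientGroup.mk' E)
    ⟨hinj, QuotientGroup.mk'_surjective E⟩
  let χ : B →* A := (q.symm.toMonoidHom.comp e.symm.toMonoidHom).comp (QuotientGroup.mk' F)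
  have hχs : Function.Surjective χ :=
    (q.symm.surjective.comp e.symm.surjective).comp (QuotientGroup.mk'_surjective F)
  have hχk : ∀ b : B, χ b = 1 → b ∈ F := by
    intro b hb
    have h1 : q.symm (e.symm (QuotientGroup.mk' F b)) = 1 := hb
    rw [MulEquiv.map_eq_one_iff, MulEquiv.map_eq_one_iff] at h1
    rw [← QuotientGroup.ker_mk' F]
    exact h1
  let ψ : B.normalCore →* GG false :=
    (A.subtype.comp χ).comp (Subgroup.inclusion (Subgroup.normalCore_le B))
  have hker : Finite ψ.ker := by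
    refine Finite.of_injective (fun x : ψ.ker =>
      (⟨Subgroup.inclusion (Subgroup.normalCore_le B) x.1, hχk _ (Subtype.ext x.2)⟩ : F)) ?_
    intro x y hxy
    have h1 : ((x : B.normalCore) : K) = ((y : B.normalCore) : K) :=
      congrArg (fun z : F => ((z : B) : K)) hxy
    exact Subtype.ext (Subtype.ext h1)
  have hrange : ψ.range = (((B.normalCore).subgroupOf B).map χ).map A.subtype := by
    ext g
    constructor
    · rintro ⟨x, rfl⟩
      exact ⟨_, ⟨Subgroup.inclusion (Subgroup.normalCore_le B) x, x.2, rfl⟩, rfl⟩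
    · rintro ⟨_, ⟨x, hx, rfl⟩, rfl⟩
      exact ⟨⟨x, hx⟩, rfl⟩
  have hr : ψ.range.FiniteIndex := by
    constructor
    rw [hrange, Subgroup.index_map_subtype]
    have h1 : ((B.normalCore.subgroupOf B).map χ).index ∣ (B.normalCore.subgroupOf B).index :=
      Subgroup.index_map_dvd _ hχs
    have h2 : (B.normalCore.subgroupOf B).index ≠ 0 := by
      have : (B.normalCore.subgroupOf B).FiniteIndex := inferInstance
      exact this.index_ne_zero
    refine mul_ne_zero ?_ hA.index_ne_zero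
    intro h0
    rw [h0, zero_dvd_iff] at h1
    exact h2 h1
  exact no_hom Ω hq B.normalCore ψ hker hr

end prim

end Pool.Agent.H23.HTP
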